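import Mathlib
import Pool.Agent.H694R3.Hs6

open Filter Topology MeasureTheory

namespace Pool.Agent.Results.MP_7fb4a2_an.NoHilbertRepFactor

universe u v

/-- The Fourier transform `n ↦ ∫ exp (2 π i n t) dρ(t)` of a positive Borel measure `ρ` on the
circle `ℝ / ℤ` (in Mathlib `fourier n` is the character `t ↦ exp (2 π i n t)` of `ℝ / ℤ`). -/
noncomputable def transform (ρ : Measure UnitAddCircle) (n : ℤ) : ℂ :=
  ∫ t : UnitAddCircle, fourier n t ∂ρ

/-- `h ∈ B(ℤ)`: `h` is the Fourier transform of a complex Borel measure on the circle. A complex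
measure is written as `ρ 0 - ρ 1 + i (ρ 2 - ρ 3)` with finite positive Borel measures `ρ k`. -/
def MemB (h : ℤ → ℂ) : Prop :=
  ∃ ρ : Fin 4 → Measure UnitAddCircle, (∀ k, IsFiniteMeasure (ρ k)) ∧
    ∀ n, h n = transform (ρ 0) n - transform (ρ 1) n
      + Complex.I * (transform (ρ 2) n - transform (ρ 3) n)

/-- `h ∈ H(ℤ)`: `h` is a uniform limit of elements of `B(ℤ)`. -/
def MemH (h : ℤ → ℂ) : Prop :=
  ∀ ε : ℝ, 0 < ε → ∃ b, MemB b ∧ ∀ n, ‖h n - b n‖ ≤ ε

/-- The system `(Y, R)` is Hilbert representable over the scalar field `𝕜`: there are a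
Hilbert space `H` over `𝕜`, a unitary operator `U` on `H` and a topological embedding `α` of `Y`
into `H` with its weak topology such that `α ∘ R = U ∘ α`. -/
def HilbertRepresentable (𝕜 : Type) [RCLike 𝕜] (Y : Type v) [TopologicalSpace Y]
    (R : Y ≃ₜ Y) : Prop :=
  ∃ (H : Type u) (_ : NormedAddCommGroup H) (_ : InnerProductSpace 𝕜 H) (_ : CompleteSpace H)
    (U : H ≃ₗᵢ[𝕜] H) (α : Y → H),
    IsEmbedding (fun y => toWeakSpace 𝕜 H (α y)) ∧ ∀ y, α (R y) = U (α y)

lemma continuous_inner_of_weak {𝕜 : Type} [RCLike 𝕜] {Y : Type*} [TopologicalSpace Y]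
    {H : Type*} [NormedAddCommGroup H] [InnerProductSpace 𝕜 H] {α : Y → H}
    (h : Continuous fun y => toWeakSpace 𝕜 H (α y)) (v : H) :
    Continuous fun y => inner 𝕜 v (α y) :=
  (WeakBilin.eval_continuous (topDualPairing 𝕜 H).flip (innerSL 𝕜 v)).comp h

lemma no_rep_factor (𝕜 : Type) [RCLike 𝕜] {Y : Type v} [TopologicalSpace Y] [T2Space Y]
    (R : Y ≃ₜ Y) (π : Pool.Agent.H694R3.Hs.XX → Y) (hπ : Continuous π)
    (hs : Function.Surjective π) (he : ∀ x, π (Pool.Agent.H694R3.Hs.SS x) = R (π x))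
    (h : HilbertRepresentable.{u, v} 𝕜 Y R) : Subsingleton Y := by
  obtain ⟨H, _, _, _, U, α, hα, hU⟩ := h
  refine Pool.Agent.H694R3.Hs.no_factor Pool.Agent.H694R3.Hs.XX_dense
    (Pool.Agent.H694R3.Hs.XX_collapses 𝕜) R π hπ hs he U α ?_
    (continuous_inner_of_weak hα.continuous) hU
  intro x y hxy
  apply hα.injective
  simp only [hxy]

/-- There is a metrizable recurrent-transitive Hilbert system `(X, T)` with no nontrivial Hilbert
representable factor; moreover the only functions in `𝒜(X, x₀) ∩ B(ℤ)` are the constants. -/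
theorem result : ∃ (X : Type) (_ : TopologicalSpace X) (_ : CompactSpace X)
    (_ : TopologicalSpace.MetrizableSpace X) (T : X ≃ₜ X) (x₀ : X),
    -- `x₀` is a transitive point
    Dense (Set.range fun n : ℤ => (T ^ n) x₀) ∧
    -- `X` has no isolated points
    (∀ x : X, ¬ IsOpen ({x} : Set X)) ∧
    -- the system is Hilbert: `𝒜(X, x₀) ⊆ H(ℤ)`
    (∀ F : C(X, ℂ), MemH fun n => F ((T ^ n) x₀)) ∧
    -- every Hilbert representable factor is trivial
    (∀ (Y : Type v) (_ : TopologicalSpace Y) (_ : CompactSpace Y) (_ : T2Space Y) (R : Y ≃ₜ Y)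
      (π : X → Y), Continuous π → Function.Surjective π → (∀ x, π (T x) = R (π x)) →
      (HilbertRepresentable.{u, v} ℝ Y R ∨ HilbertRepresentable.{u, v} ℂ Y R) →
      Subsingleton Y) ∧
    -- `𝒜(X, x₀) ∩ B(ℤ)` consists of the constant sequences
    (∀ F : C(X, ℂ), (MemB fun n => F ((T ^ n) x₀)) → ∃ c : ℂ, ∀ x, F x = c) := by
  refine ⟨Pool.Agent.H694R3.Hs.XX, inferInstance, inferInstance, inferInstance,
    Pool.Agent.H694R3.Hs.SS, Pool.Agent.H694R3.Hs.x0, Pool.Agent.H694R3.Hs.XX_dense,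
    Pool.Agent.H694R3.Hs.XX_no_isolated, Pool.Agent.H694R3.Hs.XX_hilbert, ?_, ?_⟩
  · intro Y _ _ _ R π hπ hs he h
    rcases h with h | h
    · exact no_rep_factor ℝ R π hπ hs he h
    · exact no_rep_factor ℂ R π hπ hs he h
  · intro F hF
    have hF' : Pool.Agent.H694R3.Hs.IsFS fun n : ℤ =>
        F ((Pool.Agent.H694R3.Hs.SS ^ n) Pool.Agent.H694R3.Hs.x0) := hF
    obtain ⟨H, _, _, _, U, η, ξ, h⟩ := hF'.coeff
    exact Pool.Agent.H694R3.Hs.coeff_const Pool.Agent.H694R3.Hs.XX_dense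
      (Pool.Agent.H694R3.Hs.XX_collapses ℂ) U η ξ F h

end Pool.Agent.Results.MP_7fb4a2_an.NoHilbertRepFactor
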